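import Pool.Agent.GZ72.Two

/-!
# GZ72/Half: the threshold `1 / 2`

`Y x = S x + x`. After a jump at `x`, the next jump `g` comes after `t ≤ g` steps, so `Y` grows by at most one, and it grows only
if `t = g` is an odd prime which divides `p Y ^ 2 - 4`. So a level `y` such that no odd prime `≤ G` divides `p y ^ 2 - 4` is
passed only with a jump larger than `G`.
-/

set_option autoImplicit false

namespace Pool.Agent.GZ72

/-- no odd prime `≤ G` divides `p y ^ 2 - 4` -/
def Blocked (p G y : ℕ) : Prop :=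
  ∀ l : ℕ, l.Prime → 3 ≤ l → l ≤ G → ¬ (l : ℤ) ∣ p * (y : ℤ) ^ 2 - 4

open Classical in
/-- the number of blocked levels in `[A, B)` -/
noncomputable def cnt (p G A B : ℕ) : ℕ := ((Finset.Ico A B).filter (fun y => Blocked p G y)).card

theorem cnt_mono {p G A B C : ℕ} (h : B ≤ C) : cnt p G A B ≤ cnt p G A C := by
  classical
  unfold cnt
  apply Finset.card_le_card
  apply Finset.filter_subset_filter
  exact Finset.Ico_subset_Ico_right h

theorem cnt_succ_le {p G A B : ℕ} : cnt p G A (B + 1) ≤ cnt p G A B + 1 := by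
  classical
  unfold cnt
  have h : (Finset.Ico A (B + 1)).filter (fun y => Blocked p G y) ⊆
      insert B ((Finset.Ico A B).filter (fun y => Blocked p G y)) := by
    intro y hy
    rw [Finset.mem_filter, Finset.mem_Ico] at hy
    rw [Finset.mem_insert, Finset.mem_filter, Finset.mem_Ico]
    by_cases h : y = B
    · exact Or.inl h
    · exact Or.inr ⟨⟨hy.1.1, by omega⟩, hy.2⟩
  exact (Finset.card_le_card h).trans (Finset.card_insert_le _ _)

theorem cnt_succ_eq {p G A B : ℕ} (hB : ¬ Blocked p G B) : cnt p G A (B + 1) ≤ cnt p G A B := by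
  classical
  unfold cnt
  apply Finset.card_le_card
  intro y hy
  rw [Finset.mem_filter, Finset.mem_Ico] at hy ⊢
  have h : y ≠ B := by
    rintro rfl
    exact hB hy.2
  exact ⟨⟨hy.1.1, by omega⟩, hy.2⟩

variable {p n₀ n : ℕ}

/-- the level `S x + x` -/
def Y (p x : ℕ) : ℕ := (S p x + x).toNat

theorem Y_cast (x : ℕ) : (Y p x : ℤ) = S p x + x := by
  unfold Y
  apply Int.toNat_of_nonneg
  have := a_nonneg p x
  unfold S
  omega

/-- checkpoints -/
def ChkH (p n₀ n G x : ℕ) : Prop :=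
  n₀ + 1 ≤ x ∧ x ≤ n ∧
    (G : ℤ) * cnt p G (Y p (n₀ + 1)) (Y p x) ≤
      p * ((n₀ : ℤ) + 1) ^ 2 + (n₀ + 1) - S p x

theorem chk_nextH (hp : 1 ≤ p) (hc : Consecutive p n₀ n) {G x : ℕ}
    (hx : ChkH p n₀ n G x) {q : ℕ} (hq : q.Prime) (hqa : (q : ℤ) ≤ a p x)
    (hqd : (q : ℤ) ∣ p * (S p x) ^ 2 - 1) : ∃ y, x < y ∧ ChkH p n₀ n G y := by
  obtain ⟨hx1, hx2, hx3⟩ := hx
  set P : ℕ := (p * (S p x) ^ 2 - 1).natAbs with hP
  have hqP : q ∣ P := by
    rw [hP, ← Int.natCast_dvd_natCast, Int.dvd_natAbs]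
    exact hqd
  have hP1 : P ≠ 1 := by
    intro h
    rw [h, Nat.dvd_one] at hqP
    exact hq.one_lt.ne' hqP
  have hq0 : P.minFac.Prime := Nat.minFac_prime hP1
  have hq0d : (P.minFac : ℤ) ∣ p * (S p x) ^ 2 - 1 := by
    have h := Nat.minFac_dvd P
    rw [← Int.natCast_dvd_natCast] at h
    rw [← Int.dvd_natAbs]
    exact h
  have hq0q : P.minFac ≤ q := Nat.minFac_le_of_dvd hq.two_le hqP
  obtain ⟨k, h1, h2, h3, h4, h5⟩ := jump hc (x := x) (q := P.minFac) (by omega) hx2 hq0.two_le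
    (by have : (P.minFac : ℤ) ≤ q := by exact_mod_cast hq0q
        omega) hq0d
  have h6 : P.minFac ≤ g p k := by
    apply Nat.minFac_le_of_dvd h5
    rw [hP, ← Int.natCast_dvd_natCast, Int.dvd_natAbs, ← h4]
    exact g_dvd
  have hlow : Low p 3 := ⟨le_rfl, fun q _ h h' => by omega⟩
  have h7 : 3 ≤ P.minFac := low_le hlow hp hc hx1 hx2 hq0 hq0d
  have h8 := S_succ (p := p) (x := k) (by omega) (pos_of hc (by omega) h3)
  refine ⟨k + 1, by omega, by omega, by omega, ?_⟩
  have hYx := Y_cast (p := p) x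
  have hYk := Y_cast (p := p) (k + 1)
  rw [h8, h4] at hYk ⊢
  have hkq : (k : ℤ) + 1 - x ≤ P.minFac := by
    have : k + 1 ≤ x + P.minFac := by omega
    have h9 : ((k + 1 : ℕ) : ℤ) ≤ ((x + P.minFac : ℕ) : ℤ) := by exact_mod_cast this
    push_cast at h9
    linarith
  have hqg : (P.minFac : ℤ) ≤ g p k := by exact_mod_cast h6
  have h7' : (3 : ℤ) ≤ P.minFac := by exact_mod_cast h7
  have hYle : Y p (k + 1) ≤ Y p x + 1 := by
    have : (Y p (k + 1) : ℤ) ≤ Y p x + 1 := by
      rw [hYk, hYx]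
      push_cast
      linarith
    exact_mod_cast this
  rcases Nat.lt_or_ge (Y p x) (Y p (k + 1)) with hlt | hle
  · have hYeq : Y p (k + 1) = Y p x + 1 := by omega
    have hYeq' : (Y p (k + 1) : ℤ) = Y p x + 1 := by exact_mod_cast hYeq
    have hgk : (g p k : ℤ) = k + 1 - x := by
      rw [hYk, hYx] at hYeq'
      push_cast at hYeq'
      linarith
    have hgP : g p k = P.minFac := by
      have : (g p k : ℤ) ≤ P.minFac := by rw [hgk]; exact hkq
      have : g p k ≤ P.minFac := by exact_mod_cast this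
      omega
    have hdY : (g p k : ℤ) ∣ p * (Y p x : ℤ) ^ 2 - 4 := by
      have hd1 : (g p k : ℤ) ∣ S p x - x := by
        have h10 : (g p k : ℤ) ∣ a p k := Int.gcd_dvd_left _ _
        have h11 : a p k = (S p x - x) - g p k := by
          have : S p k = a p k + k + 1 := rfl
          rw [h4] at this
          rw [hgk]
          linarith
        rw [h11] at h10
        have h12 := dvd_add h10 (dvd_refl (g p k : ℤ))
        simpa using h12
      have hd2 : (g p k : ℤ) ∣ p * (S p x) ^ 2 - 1 := by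
        rw [← h4]
        exact g_dvd
      have h13 : p * (Y p x : ℤ) ^ 2 - 4 =
          4 * (p * (S p x) ^ 2 - 1) + (S p x - x) * (p * (S p x - x) - 4 * p * S p x) := by
        rw [hYx]
        ring
      rw [h13]
      exact dvd_add (hd2.mul_left _) (hd1.mul_right _)
    by_cases hB : Blocked p G (Y p x)
    · have hGg : G < g p k := by
        by_contra h
        push Not at h
        exact hB (g p k) (hgP ▸ hq0) (by omega) h hdY
      have hGg' : (G : ℤ) + 1 ≤ g p k := by exact_mod_cast hGg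
      have h14 : (cnt p G (Y p (n₀ + 1)) (Y p (k + 1)) : ℤ) ≤
          cnt p G (Y p (n₀ + 1)) (Y p x) + 1 := by
        rw [hYeq]
        exact_mod_cast cnt_succ_le
      have h15 : (G : ℤ) * cnt p G (Y p (n₀ + 1)) (Y p (k + 1)) ≤
          G * (cnt p G (Y p (n₀ + 1)) (Y p x) + 1) :=
        mul_le_mul_of_nonneg_left h14 (by positivity)
      linarith
    · have h14 : (cnt p G (Y p (n₀ + 1)) (Y p (k + 1)) : ℤ) ≤
          cnt p G (Y p (n₀ + 1)) (Y p x) := by
        rw [hYeq]
        exact_mod_cast cnt_succ_eq hB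
      have h15 : (G : ℤ) * cnt p G (Y p (n₀ + 1)) (Y p (k + 1)) ≤
          G * cnt p G (Y p (n₀ + 1)) (Y p x) :=
        mul_le_mul_of_nonneg_left h14 (by positivity)
      linarith
  · have h14 : (cnt p G (Y p (n₀ + 1)) (Y p (k + 1)) : ℤ) ≤
        cnt p G (Y p (n₀ + 1)) (Y p x) := by
      exact_mod_cast cnt_mono hle
    have h15 : (G : ℤ) * cnt p G (Y p (n₀ + 1)) (Y p (k + 1)) ≤
        G * cnt p G (Y p (n₀ + 1)) (Y p x) :=
      mul_le_mul_of_nonneg_left h14 (by positivity)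
    linarith

/-- The state after the last jump. -/
theorem last_state (hp : 1 ≤ p) (hc : Consecutive p n₀ n) (G : ℕ) {q : ℕ}
    (hq : q.Prime) (hqd : (q : ℤ) ∣ p * ((n : ℤ) + 1) ^ 2 - 1) :
    ∃ x : ℕ, (n : ℤ) - x < q ∧
      (G : ℤ) * cnt p G (p * (n₀ + 1) ^ 2 + 2 * (n₀ + 1)) (n + 1 + x) ≤
        p * ((n₀ : ℤ) + 1) ^ 2 + (n₀ + 1) - (n + 1) := by
  classical
  have hbase : ChkH p n₀ n G (n₀ + 1) := by
    refine ⟨le_rfl, hc.2.1, ?_⟩
    rw [S_first hp hc]
    simp [cnt]
  have hne : ((Finset.range (n + 1)).filter (fun x => ChkH p n₀ n G x)).Nonempty :=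
    ⟨n₀ + 1, by
      rw [Finset.mem_filter, Finset.mem_range]
      exact ⟨by have := hc.2.1; omega, hbase⟩⟩
  set x := ((Finset.range (n + 1)).filter (fun x => ChkH p n₀ n G x)).max' hne with hx
  have hmem := ((Finset.range (n + 1)).filter (fun x => ChkH p n₀ n G x)).max'_mem hne
  rw [← hx, Finset.mem_filter, Finset.mem_range] at hmem
  have hlast : ∀ q : ℕ, q.Prime → (q : ℤ) ≤ a p x → ¬ (q : ℤ) ∣ p * (S p x) ^ 2 - 1 := by
    intro q' h1 h2 h3
    obtain ⟨y, hy1, hy2⟩ := chk_nextH hp hc hmem.2 h1 h2 h3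
    have h4 : y ∈ (Finset.range (n + 1)).filter (fun x => ChkH p n₀ n G x) := by
      rw [Finset.mem_filter, Finset.mem_range]
      exact ⟨by have := hy2.2.1; omega, hy2⟩
    have h5 := ((Finset.range (n + 1)).filter (fun x => ChkH p n₀ n G x)).le_max' y h4
    omega
  obtain ⟨hx1, hx2, hx3⟩ := hmem.2
  have hS := no_jump hc hx1 hx2 hlast
  refine ⟨x, ?_, ?_⟩
  · have h1 : a p x < q := by
      by_contra h2
      push Not at h2
      apply hlast q hq h2
      rw [hS]
      exact hqd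
    unfold S at hS
    omega
  · have h1 : Y p (n₀ + 1) = p * (n₀ + 1) ^ 2 + 2 * (n₀ + 1) := by
      have h2 := Y_cast (p := p) (n₀ + 1)
      rw [S_first hp hc] at h2
      have h3 : (Y p (n₀ + 1) : ℤ) = ((p * (n₀ + 1) ^ 2 + 2 * (n₀ + 1) : ℕ) : ℤ) := by
        rw [h2]
        push_cast
        ring
      exact_mod_cast h3
    have h4 : Y p x = n + 1 + x := by
      have h2 := Y_cast (p := p) x
      rw [hS] at h2
      have h3 : (Y p x : ℤ) = ((n + 1 + x : ℕ) : ℤ) := by
        rw [h2]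
        push_cast
        ring
      exact_mod_cast h3
    rw [h1, h4, hS] at hx3
    exact hx3

end Pool.Agent.GZ72
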