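import Mathlib

/-!
# GZ72/Defs (MP_63b904_nt): the gcd recursion
-/

set_option autoImplicit false

namespace Pool.Agent.GZ72

/-- `a_p(n)`; the value at `0` is an unused dummy. -/
def a (p : ℕ) : ℕ → ℤ
  | 0 => 0
  | 1 => p
  | (n + 2) => |a p (n + 1) - (Int.gcd (a p (n + 1)) (p * ((n : ℤ) + 2) ^ 2 - 1) : ℤ)|

/-- `n₀ < n` are consecutive zeros of `a_p`. -/
def Consecutive (p n₀ n : ℕ) : Prop :=
  1 ≤ n₀ ∧ n₀ < n ∧ a p n₀ = 0 ∧ a p n = 0 ∧ ∀ k, n₀ < k → k < n → a p k ≠ 0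

end Pool.Agent.GZ72
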