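import Pool.Agent.GZ72.Sieve

/-!
# GZ72/Fin: assembly of the theorem with threshold `1 / 2`
-/

set_option autoImplicit false

namespace Pool.Agent.GZ72

variable {p n₀ n : ℕ}

/-- The density of the blocked levels, in the form which is used. -/
def SieveHyp (p : ℕ) : Prop :=
  ∀ K : ℝ, 0 ≤ K → ∃ G Q : ℕ, ∀ A D : ℕ, K * ((D : ℝ) - Q) ≤ G * cnt p G A (A + D)

theorem factor_half (hs : SieveHyp p) (hp : 1 ≤ p) {K : ℝ} (hK : 0 ≤ K) :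
    ∃ Q : ℕ, ∀ n₀ n : ℕ, Consecutive p n₀ n → ∀ q : ℕ, q.Prime →
      (q : ℤ) ∣ p * ((n : ℤ) + 1) ^ 2 - 1 →
        K * (2 * n + 1 - q - (p * ((n₀ : ℝ) + 1) ^ 2 + 2 * (n₀ + 1)) - Q) ≤
          p * ((n₀ : ℝ) + 1) ^ 2 + (n₀ + 1) - (n + 1) := by
  obtain ⟨G, Q, hGQ⟩ := hs K hK
  refine ⟨Q, fun n₀ n hc q hq hqd => ?_⟩
  obtain ⟨x, hx1, hx2⟩ := last_state hp hc G hq hqd
  have hx1' : (n : ℝ) - x < q := by exact_mod_cast hx1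
  have hx2' : (G : ℝ) * cnt p G (p * (n₀ + 1) ^ 2 + 2 * (n₀ + 1)) (n + 1 + x) ≤
      p * ((n₀ : ℝ) + 1) ^ 2 + (n₀ + 1) - (n + 1) := by exact_mod_cast hx2
  have hnonneg : (0 : ℝ) ≤ (G : ℝ) * cnt p G (p * (n₀ + 1) ^ 2 + 2 * (n₀ + 1)) (n + 1 + x) := by
    positivity
  set A : ℕ := p * (n₀ + 1) ^ 2 + 2 * (n₀ + 1) with hA
  have hAr : (A : ℝ) = p * ((n₀ : ℝ) + 1) ^ 2 + 2 * (n₀ + 1) := by rw [hA]; push_cast; ring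
  rcases Nat.lt_or_ge (n + 1 + x) A with h | h
  · have h1 : ((n : ℝ) + 1 + x) < A := by exact_mod_cast h
    have h2 : 2 * (n : ℝ) + 1 - q - (p * ((n₀ : ℝ) + 1) ^ 2 + 2 * (n₀ + 1)) - Q ≤ 0 := by
      have : (0 : ℝ) ≤ Q := Nat.cast_nonneg _
      linarith
    have h3 : K * (2 * n + 1 - q - (p * ((n₀ : ℝ) + 1) ^ 2 + 2 * (n₀ + 1)) - Q) ≤ 0 :=
      mul_nonpos_of_nonneg_of_nonpos hK h2
    linarith
  · obtain ⟨D, hD⟩ := Nat.exists_eq_add_of_le h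
    have h1 := hGQ A D
    rw [← hD] at h1
    have h2 : ((n : ℝ) + 1 + x) = A + D := by exact_mod_cast hD
    have h3 : 2 * (n : ℝ) + 1 - q - (p * ((n₀ : ℝ) + 1) ^ 2 + 2 * (n₀ + 1)) - Q ≤ (D : ℝ) - Q := by
      linarith
    have h4 := mul_le_mul_of_nonneg_left h3 hK
    linarith

theorem factor_large_half (hs : SieveHyp p) (hp : 1 ≤ p) {δ : ℝ} (hδ : 0 < δ) :
    ∃ N₀ : ℕ, ∀ n₀ n : ℕ, N₀ ≤ n₀ → Consecutive p n₀ n →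
      ∀ q : ℕ, q.Prime → (q : ℤ) ∣ p * ((n : ℤ) + 1) ^ 2 - 1 →
        2 * n - (1 + δ) * (p * (n₀ : ℝ) ^ 2) < q := by
  obtain ⟨Q, hQ⟩ := factor_half hs hp (K := 2 / δ) (by positivity)
  obtain ⟨N₀, hN₀⟩ := exists_nat_gt ((14 + 2 * Q + 5 * δ) / δ)
  refine ⟨N₀, fun n₀ n hN hc q hq hqd => ?_⟩
  have h1 := hQ n₀ n hc q hq hqd
  have hp1 : (1 : ℝ) ≤ p := by exact_mod_cast hp
  have hn1 : (1 : ℝ) ≤ n₀ := by exact_mod_cast hc.1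
  have hQ0 : (0 : ℝ) ≤ Q := Nat.cast_nonneg _
  have hpn : (1 : ℝ) ≤ p * n₀ := by nlinarith
  have hpn' : (n₀ : ℝ) ≤ p * n₀ := by nlinarith
  have hpn2 : (p : ℝ) ≤ p * n₀ := by nlinarith
  have h3 : (14 + 2 * (Q : ℝ) + 5 * δ) < δ * n₀ := by
    have : (N₀ : ℝ) ≤ n₀ := by exact_mod_cast hN
    have h4 : (14 + 2 * (Q : ℝ) + 5 * δ) / δ < n₀ := by linarith
    rw [div_lt_iff₀ hδ] at h4
    linarith
  have h5 : (p : ℝ) * ((n₀ : ℝ) + 1) ^ 2 + (n₀ + 1) ≤ p * n₀ ^ 2 + 5 * (p * n₀) := by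
    have : (p : ℝ) * ((n₀ : ℝ) + 1) ^ 2 = p * n₀ ^ 2 + 2 * (p * n₀) + p := by ring
    linarith
  have h5' : (p : ℝ) * ((n₀ : ℝ) + 1) ^ 2 + 2 * (n₀ + 1) ≤ p * n₀ ^ 2 + 7 * (p * n₀) := by
    have : (p : ℝ) * ((n₀ : ℝ) + 1) ^ 2 = p * n₀ ^ 2 + 2 * (p * n₀) + p := by ring
    linarith
  -- `X = p n₀ ^ 2`, `Z = p n₀`
  set X : ℝ := p * n₀ ^ 2 with hX
  set Z : ℝ := p * n₀ with hZ
  have hXZ : δ * X = Z * (δ * n₀) := by rw [hX, hZ]; ring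
  have h6 : Z * (14 + 2 * Q + 5 * δ) < δ * X := by
    rw [hXZ]
    exact mul_lt_mul_of_pos_left h3 (by linarith)
  have h8 : 2 / δ * (2 * n + 1 - q - (p * ((n₀ : ℝ) + 1) ^ 2 + 2 * (n₀ + 1)) - Q) ≤ X + 5 * Z := by
    have : (0 : ℝ) ≤ n := Nat.cast_nonneg _
    linarith
  have h9 : 2 * n + 1 - q - (p * ((n₀ : ℝ) + 1) ^ 2 + 2 * (n₀ + 1)) - Q ≤ δ / 2 * (X + 5 * Z) := by
    have h10 := mul_le_mul_of_nonneg_left h8 (by positivity : (0 : ℝ) ≤ δ / 2)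
    have h11 : δ / 2 * (2 / δ * (2 * n + 1 - q - (p * ((n₀ : ℝ) + 1) ^ 2 + 2 * (n₀ + 1)) - Q)) =
        2 * n + 1 - q - (p * ((n₀ : ℝ) + 1) ^ 2 + 2 * (n₀ + 1)) - Q := by
      field_simp
    linarith
  have h13 : (Q : ℝ) ≤ Z * Q := by nlinarith
  nlinarith

/-- The threshold `1 / 2`: prime or a product of two primes. -/
theorem two_factors_half (hp : 1 ≤ p) {δ : ℝ} (hδ : 0 < δ) :
    ∃ N₀ : ℕ, ∀ n₀ n : ℕ, N₀ ≤ n₀ → Consecutive p n₀ n →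
      (1 / 2 + δ) * (p * (n₀ : ℝ) ^ 2) ≤ n →
        (p * (n + 1) ^ 2 - 1).Prime ∨ ∃ q₁ q₂ : ℕ, q₁.Prime ∧ q₂.Prime ∧
          2 * n - (1 + δ) * (p * (n₀ : ℝ) ^ 2) < q₁ ∧ q₁ ≤ q₂ ∧
            p * (n + 1) ^ 2 - 1 = q₁ * q₂ := by
  obtain ⟨A, hA⟩ := factor_large_half (sieve p) hp hδ
  obtain ⟨B, hB⟩ := exists_nat_gt (36 / δ ^ 3)
  refine ⟨A + B + 1, fun n₀ n hN hc hn => ?_⟩
  have hn₀n := hc.2.1
  have hn2 : 2 ≤ n := by omega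
  have hge : 1 ≤ p * (n + 1) ^ 2 := Nat.mul_pos hp (by positivity)
  have hcast : ((p * (n + 1) ^ 2 - 1 : ℕ) : ℤ) = p * ((n : ℤ) + 1) ^ 2 - 1 := by
    rw [Nat.cast_sub hge]
    push_cast
    ring
  have hBX : δ * (p * (n₀ : ℝ) ^ 2) ≤ 2 * n - (1 + δ) * (p * (n₀ : ℝ) ^ 2) := by linarith
  have hX0 : (0 : ℝ) ≤ δ * (p * (n₀ : ℝ) ^ 2) := by positivity
  refine prime_or (B := 2 * n - (1 + δ) * (p * (n₀ : ℝ) ^ 2)) (hX0.trans hBX) ?_ ?_ ?_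
  · have h1 : 3 ^ 2 ≤ (n + 1) ^ 2 := Nat.pow_le_pow_left (by omega) 2
    have h2 : (n + 1) ^ 2 ≤ p * (n + 1) ^ 2 := Nat.le_mul_of_pos_left _ hp
    omega
  · have hp1 : (1 : ℝ) ≤ p := by exact_mod_cast hp
    have hn1 : (1 : ℝ) ≤ n₀ := by exact_mod_cast hc.1
    have h0 : (n : ℝ) + 1 ≤ p * ((n₀ : ℝ) + 1) ^ 2 + (n₀ + 1) := by exact_mod_cast S_le hp hc
    have h1 : ((p * (n + 1) ^ 2 - 1 : ℕ) : ℝ) < p * ((n : ℝ) + 1) ^ 2 := by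
      rw [Nat.cast_sub hge]
      push_cast
      linarith
    have hnp : (n₀ : ℝ) ≤ n₀ ^ 2 := by nlinarith
    have h2 : (n : ℝ) + 1 ≤ 6 * (p * n₀ ^ 2) := by
      have h3 : ((n₀ : ℝ) + 1) ^ 2 ≤ 4 * n₀ ^ 2 := by nlinarith
      have h4 : (p : ℝ) * ((n₀ : ℝ) + 1) ^ 2 ≤ p * (4 * n₀ ^ 2) :=
        mul_le_mul_of_nonneg_left h3 (by linarith)
      have h5 : (n₀ : ℝ) ^ 2 ≤ p * n₀ ^ 2 := by nlinarith
      nlinarith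
    have h3 : ((n : ℝ) + 1) ^ 2 ≤ (6 * (p * n₀ ^ 2)) ^ 2 := by
      apply pow_le_pow_left₀ _ h2
      positivity
    have h4 : 36 < δ ^ 3 * n₀ ^ 2 := by
      have h5 : (B : ℝ) ≤ n₀ := by exact_mod_cast (by omega)
      have h6 : 36 / δ ^ 3 < n₀ ^ 2 := by linarith
      rw [div_lt_iff₀ (by positivity)] at h6
      linarith
    have h5 : (0 : ℝ) < p ^ 3 * n₀ ^ 4 := by positivity
    calc ((p * (n + 1) ^ 2 - 1 : ℕ) : ℝ) < p * ((n : ℝ) + 1) ^ 2 := h1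
      _ ≤ p * (6 * (p * n₀ ^ 2)) ^ 2 := mul_le_mul_of_nonneg_left h3 (by linarith)
      _ = 36 * (p ^ 3 * n₀ ^ 4) := by ring
      _ ≤ (δ ^ 3 * n₀ ^ 2) * (p ^ 3 * n₀ ^ 4) := mul_le_mul_of_nonneg_right h4.le h5.le
      _ = (δ * (p * n₀ ^ 2)) ^ 3 := by ring
      _ ≤ (2 * n - (1 + δ) * (p * (n₀ : ℝ) ^ 2)) ^ 3 := pow_le_pow_left₀ hX0 hBX 3
  · intro q hq hqd
    refine hA n₀ n (by omega) hc q hq ?_
    rw [← hcast]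
    exact_mod_cast hqd

/-- Both parts. -/
theorem main_half (hp : 1 ≤ p) {δ : ℝ} (hδ : 0 < δ) :
    ∃ N₀ : ℕ, ∀ n₀ n : ℕ, N₀ ≤ n₀ → Consecutive p n₀ n →
      (∀ q : ℕ, q.Prime → q ∣ p * (n + 1) ^ 2 - 1 →
        2 * n - (1 + δ) * (p * (n₀ : ℝ) ^ 2) < q) ∧
      ((1 / 2 + δ) * (p * (n₀ : ℝ) ^ 2) ≤ n →
        (p * (n + 1) ^ 2 - 1).Prime ∨
          ∃ q₁ q₂ : ℕ, q₁.Prime ∧ q₂.Prime ∧ p * (n + 1) ^ 2 - 1 = q₁ * q₂) := by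
  obtain ⟨A, hA⟩ := factor_large_half (sieve p) hp hδ
  obtain ⟨B, hB⟩ := two_factors_half hp hδ
  refine ⟨A + B, fun n₀ n hN hc => ⟨fun q hq hqd => ?_, fun hn => ?_⟩⟩
  · refine hA n₀ n (by omega) hc q hq ?_
    have hge : 1 ≤ p * (n + 1) ^ 2 := Nat.mul_pos hp (by positivity)
    have hcast : ((p * (n + 1) ^ 2 - 1 : ℕ) : ℤ) = p * ((n : ℤ) + 1) ^ 2 - 1 := by
      rw [Nat.cast_sub hge]
      push_cast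
      ring
    rw [← hcast]
    exact_mod_cast hqd
  · rcases hB n₀ n (by omega) hc hn with h | ⟨q₁, q₂, h1, h2, -, -, h3⟩
    · exact Or.inl h
    · exact Or.inr ⟨q₁, q₂, h1, h2, h3⟩

end Pool.Agent.GZ72
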