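import Pool.Agent.GZ72.Defs

/-!
# GZ72/Main (MP_63b904_nt): prime factors of `p (n + 1) ^ 2 - 1` at a zero `n`

`S x = a x + x + 1` is constant while the gcd is `1`, and `g ∣ a x`, `g ∣ p (x + 1) ^ 2 - 1` gives `g ∣ p (S x) ^ 2 - 1`. Between two
consecutive zeros a jump `g` lowers `S` by `g - 1`, and if some prime `≤ a x` divides `p (S x) ^ 2 - 1`, the next jump comes
after at most `q ≤ g` steps, `q` the least prime factor. So the time spent until the last jump is at most `r / (r - 1)` times the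
decrease of `S`, where `r` is a lower bound for all jumps.
-/

set_option autoImplicit false

namespace Pool.Agent.GZ72

/-- `r = 4`, or `r ≥ 5` and no odd prime below `r` divides a number `p s ^ 2 - 1`. -/
def Admissible (p r : ℕ) : Prop :=
  r = 4 ∨ 5 ≤ r ∧ ∀ q : ℕ, q.Prime → 3 ≤ q → q < r → ∀ s : ℤ, ¬ (q : ℤ) ∣ p * s ^ 2 - 1

/-- the gcd subtracted at index `x + 1` -/
def g (p x : ℕ) : ℕ := Int.gcd (a p x) (p * ((x : ℤ) + 1) ^ 2 - 1)

/-- the sum which is constant while the gcd is `1` -/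
def S (p x : ℕ) : ℤ := a p x + x + 1

theorem a_succ (p x : ℕ) (hx : 1 ≤ x) : a p (x + 1) = |a p x - (g p x : ℤ)| := by
  obtain ⟨m, rfl⟩ : ∃ m, x = m + 1 := ⟨x - 1, by omega⟩
  simp only [a, g]
  push_cast
  ring_nf

theorem a_nonneg (p x : ℕ) : 0 ≤ a p x := by
  rcases x with _ | _ | x
  · exact le_rfl
  · simp [a]
  · simp only [a]; exact abs_nonneg _

theorem g_pos (p x : ℕ) (h : 0 < a p x) : 1 ≤ g p x := by
  unfold g
  rw [Nat.one_le_iff_ne_zero]
  intro h2
  rw [Int.gcd_eq_zero_iff] at h2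
  omega

theorem g_le (p x : ℕ) (h : 0 < a p x) : (g p x : ℤ) ≤ a p x := Int.gcd_le_left _ h

theorem a_succ' (p x : ℕ) (hx : 1 ≤ x) (h : 0 < a p x) : a p (x + 1) = a p x - g p x := by
  rw [a_succ p x hx, abs_of_nonneg]
  have := g_le p x h
  omega

theorem a_after (p x : ℕ) (hp : 1 ≤ p) (hx : 1 ≤ x) (h : a p x = 0) :
    a p (x + 1) = p * ((x : ℤ) + 1) ^ 2 - 1 := by
  rw [a_succ p x hx]
  unfold g
  rw [h]
  have h1 : (1 : ℤ) ≤ p * ((x : ℤ) + 1) ^ 2 := by
    have h2 : (1 : ℤ) ≤ p := by exact_mod_cast hp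
    have h3 : (1 : ℤ) ≤ ((x : ℤ) + 1) ^ 2 := by nlinarith [Int.natCast_nonneg x]
    nlinarith
  rw [Int.gcd_zero_left, zero_sub, abs_neg, Int.natCast_natAbs, abs_abs]
  exact abs_of_nonneg (by omega)

section Run

variable {p n₀ n : ℕ}

theorem S_succ {x : ℕ} (hx : 1 ≤ x) (h : 0 < a p x) : S p (x + 1) = S p x + 1 - g p x := by
  unfold S
  rw [a_succ' p x hx h]
  push_cast
  ring

theorem pos_of (hc : Consecutive p n₀ n) {x : ℕ} (h1 : n₀ < x) (h2 : x < n) : 0 < a p x :=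
  lt_of_le_of_ne (a_nonneg p x) (hc.2.2.2.2 x h1 h2).symm

theorem S_first (hp : 1 ≤ p) (hc : Consecutive p n₀ n) :
    S p (n₀ + 1) = p * ((n₀ : ℤ) + 1) ^ 2 + (n₀ + 1) := by
  unfold S
  rw [a_after p n₀ hp hc.1 hc.2.2.1]
  push_cast
  ring

theorem S_last (hc : Consecutive p n₀ n) : S p n = n + 1 := by
  unfold S
  rw [hc.2.2.2.1]
  ring

theorem sq_dvd {d : ℤ} {x : ℕ} (h1 : d ∣ a p x) :
    d ∣ p * ((x : ℤ) + 1) ^ 2 - 1 ↔ d ∣ p * (S p x) ^ 2 - 1 := by
  have h2 : d ∣ (p * (S p x) ^ 2 - 1) - (p * ((x : ℤ) + 1) ^ 2 - 1) := by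
    have : (p * (S p x) ^ 2 - 1) - (p * ((x : ℤ) + 1) ^ 2 - 1) =
        a p x * (p * (S p x + x + 1)) := by
      unfold S; ring
    rw [this]
    exact h1.mul_right _
  constructor
  · intro h
    have := dvd_add h2 h
    simpa using this
  · intro h
    have := dvd_sub h h2
    simpa using this

theorem g_dvd {x : ℕ} : (g p x : ℤ) ∣ p * (S p x) ^ 2 - 1 :=
  (sq_dvd (Int.gcd_dvd_left _ _)).1 (Int.gcd_dvd_right _ _)

theorem dvd_g {x : ℕ} {d : ℕ} (h1 : (d : ℤ) ∣ a p x) (h2 : (d : ℤ) ∣ p * (S p x) ^ 2 - 1) :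
    d ∣ g p x := by
  rw [← Int.natCast_dvd_natCast]
  exact Int.dvd_coe_gcd h1 ((sq_dvd h1).2 h2)

/-- `p S` is even on the whole run. -/
theorem even_S (hp : 1 ≤ p) (hc : Consecutive p n₀ n) {x : ℕ} (h1 : n₀ + 1 ≤ x) (h2 : x ≤ n) :
    (2 : ℤ) ∣ p * S p x := by
  induction x, h1 using Nat.le_induction with
  | base =>
    rw [S_first hp hc]
    rcases Int.even_or_odd (p : ℤ) with h | h
    · exact h.two_dvd.mul_right _
    · have h3 : Even ((p : ℤ) * ((n₀ : ℤ) + 1) ^ 2 + (n₀ + 1)) := by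
        have h4 : (p : ℤ) * ((n₀ : ℤ) + 1) ^ 2 + (n₀ + 1) = (n₀ + 1) * (p * (n₀ + 1) + 1) := by ring
        rw [h4]
        rcases Int.even_or_odd ((n₀ : ℤ) + 1) with h5 | h5
        · exact h5.mul_right _
        · exact ((h.mul h5).add_one).mul_left _
      exact h3.two_dvd.mul_left _
  | succ x h1 ih =>
    have h3 := ih (by omega)
    have h4 := pos_of hc (x := x) (by omega) (by omega)
    have h5 := S_succ (p := p) (x := x) (by omega) h4
    have h6 : Odd (g p x : ℤ) := by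
      rw [← Int.not_even_iff_odd]
      intro h7
      have h8 : (2 : ℤ) ∣ p * (S p x) ^ 2 - 1 := h7.two_dvd.trans g_dvd
      have h9 : (2 : ℤ) ∣ p * (S p x) ^ 2 := by
        have : (p : ℤ) * (S p x) ^ 2 = p * S p x * S p x := by ring
        rw [this]
        exact h3.mul_right _
      omega
    rw [h5]
    obtain ⟨t, ht⟩ := h6
    obtain ⟨u, hu⟩ := h3
    refine ⟨u - p * t, ?_⟩
    have : (p : ℤ) * (S p x + 1 - g p x) = p * S p x + p * (1 - g p x) := by ring
    rw [this, hu, ht]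
    ring

/-- While there is no jump, `S` is constant. -/
theorem next_jump (hc : Consecutive p n₀ n) {x j : ℕ} (hx : n₀ < x) (hxj : x ≤ j)
    (hj : S p x - (j + 1) > 0) (hxn : x ≤ n) (h : S p j = S p x → 2 ≤ g p j) :
    ∃ k, x ≤ k ∧ k ≤ j ∧ k < n ∧ S p k = S p x ∧ 2 ≤ g p k := by
  by_contra hcon
  push Not at hcon
  have key : ∀ k, x ≤ k → k ≤ j → k < n ∧ S p k = S p x := by
    intro k hk
    induction k, hk using Nat.le_induction with
    | base =>
      intro _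
      refine ⟨lt_of_le_of_ne hxn ?_, rfl⟩
      rintro rfl
      rw [S_last hc] at hj
      omega
    | succ k hk ih =>
      intro hkj
      obtain ⟨h1, h2⟩ := ih (by omega)
      have h3 := hcon k hk (by omega) h1 h2
      have h4 := pos_of hc (x := k) (by omega) h1
      have h5 := g_pos p k h4
      have h6 := S_succ (p := p) (x := k) (by omega) h4
      have h7 : S p (k + 1) = S p x := by
        rw [h6, h2]
        have : g p k = 1 := by omega
        rw [this]
        ring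
      refine ⟨lt_of_le_of_ne (by omega) ?_, h7⟩
      intro h8
      have h9 := S_last hc
      rw [← h8, h7] at h9
      rw [h9] at hj
      push_cast at hj
      omega
  obtain ⟨h1, h2⟩ := key j hxj le_rfl
  have h3 := h h2
  have h4 := hcon j hxj le_rfl h1 h2
  omega

/-- If a prime `q ≤ a x` divides `p S ^ 2 - 1`, a jump comes within `q` steps. -/
theorem jump (hc : Consecutive p n₀ n) {x q : ℕ} (hx : n₀ < x) (hxn : x ≤ n) (hq : 2 ≤ q)
    (hqa : (q : ℤ) ≤ a p x) (hqd : (q : ℤ) ∣ p * (S p x) ^ 2 - 1) :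
    ∃ k, x ≤ k ∧ k < x + q ∧ k < n ∧ S p k = S p x ∧ 2 ≤ g p k := by
  obtain ⟨A, hA⟩ : ∃ A : ℕ, (A : ℤ) = a p x := ⟨(a p x).toNat, Int.toNat_of_nonneg (a_nonneg p x)⟩
  have hqA : q ≤ A := by exact_mod_cast hA ▸ hqa
  have hlt : A % q < q := Nat.mod_lt _ (by omega)
  have hdm := Nat.div_add_mod A q
  have hdiv : 1 ≤ A / q := Nat.div_pos hqA (by omega)
  have hge : q ≤ q * (A / q) := Nat.le_mul_of_pos_right q hdiv
  have hval : S p x - ((x + A % q : ℕ) + 1) = q * (A / q : ℕ) := by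
    have h1 : S p x = (A : ℤ) + x + 1 := by unfold S; rw [hA]
    rw [h1]
    have h2 : (A : ℤ) = q * (A / q : ℕ) + (A % q : ℕ) := by exact_mod_cast hdm.symm
    push_cast at h2 ⊢
    linarith
  have hpos : S p x - ((x + A % q : ℕ) + 1) > 0 := by
    rw [hval]
    have : (0 : ℤ) < (q * (A / q) : ℕ) := by exact_mod_cast (by omega)
    push_cast at this ⊢
    exact this
  obtain ⟨k, h1, h2, h3, h4, h5⟩ := next_jump hc hx (Nat.le_add_right x (A % q)) hpos hxn (by
    intro hS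
    have h6 : a p (x + A % q) = q * (A / q : ℕ) := by
      rw [← hval, ← hS]
      unfold S
      ring
    have h7 : q ∣ g p (x + A % q) := by
      apply dvd_g
      · rw [h6]; exact dvd_mul_right _ _
      · rw [hS]; exact hqd
    have h8 : 0 < a p (x + A % q) := by
      rw [h6, ← hval]
      exact hpos
    have h9 := g_pos p _ h8
    exact hq.trans (Nat.le_of_dvd h9 h7))
  exact ⟨k, h1, by omega, h3, h4, h5⟩

/-- `r ≥ 3` is at most every odd prime which divides a number `p s ^ 2 - 1`. -/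
def Low (p r : ℕ) : Prop :=
  3 ≤ r ∧ ∀ q : ℕ, q.Prime → 3 ≤ q → q < r → ∀ s : ℤ, ¬ (q : ℤ) ∣ p * s ^ 2 - 1

theorem low_le {r : ℕ} (hr : Low p r) (hp : 1 ≤ p) (hc : Consecutive p n₀ n) {x : ℕ}
    (h1 : n₀ + 1 ≤ x) (h2 : x ≤ n) {q : ℕ} (hq : q.Prime)
    (hqd : (q : ℤ) ∣ p * (S p x) ^ 2 - 1) : r ≤ q := by
  by_contra hlt
  push Not at hlt
  rcases Nat.lt_or_ge q 3 with h3 | h3
  · have h4 : q = 2 := by have := hq.two_le; omega
    subst h4
    have h5 := even_S hp hc h1 h2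
    have h6 : (2 : ℤ) ∣ p * (S p x) ^ 2 := by
      have : (p : ℤ) * (S p x) ^ 2 = p * S p x * S p x := by ring
      rw [this]
      exact h5.mul_right _
    push_cast at hqd
    omega
  · exact hr.2 q hq h3 hlt _ hqd

/-- checkpoints -/
def Chk (p n₀ n r x : ℕ) : Prop :=
  n₀ + 1 ≤ x ∧ x ≤ n ∧
    ((r : ℤ) - 1) * (x - (n₀ + 1)) ≤ r * (p * ((n₀ : ℤ) + 1) ^ 2 + (n₀ + 1) - S p x)

theorem chk_next {r : ℕ} (hr : Low p r) (hp : 1 ≤ p) (hc : Consecutive p n₀ n) {x : ℕ}
    (hx : Chk p n₀ n r x) {q : ℕ} (hq : q.Prime) (hqa : (q : ℤ) ≤ a p x)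
    (hqd : (q : ℤ) ∣ p * (S p x) ^ 2 - 1) : ∃ y, x < y ∧ Chk p n₀ n r y := by
  obtain ⟨hx1, hx2, hx3⟩ := hx
  set P : ℕ := (p * (S p x) ^ 2 - 1).natAbs with hP
  have hqP : q ∣ P := by
    rw [hP, ← Int.natCast_dvd_natCast, Int.dvd_natAbs]
    exact hqd
  have hP1 : P ≠ 1 := by
    intro h
    rw [h, Nat.dvd_one] at hqP
    exact hq.one_lt.ne' hqP
  have hq0 : P.minFac.Prime := Nat.minFac_prime hP1
  have hq0d : (P.minFac : ℤ) ∣ p * (S p x) ^ 2 - 1 := by
    have h := Nat.minFac_dvd P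
    rw [← Int.natCast_dvd_natCast] at h
    rw [← Int.dvd_natAbs]
    exact h
  have hq0q : P.minFac ≤ q := Nat.minFac_le_of_dvd hq.two_le hqP
  obtain ⟨k, h1, h2, h3, h4, h5⟩ := jump hc (x := x) (q := P.minFac) (by omega) hx2 hq0.two_le
    (by have : (P.minFac : ℤ) ≤ q := by exact_mod_cast hq0q
        omega) hq0d
  have h6 : P.minFac ≤ g p k := by
    apply Nat.minFac_le_of_dvd h5
    rw [hP, ← Int.natCast_dvd_natCast, Int.dvd_natAbs, ← h4]
    exact g_dvd
  have h7 : r ≤ P.minFac := low_le hr hp hc hx1 hx2 hq0 hq0d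
  have h8 := S_succ (p := p) (x := k) (by omega) (pos_of hc (by omega) h3)
  refine ⟨k + 1, by omega, by omega, by omega, ?_⟩
  rw [h8, h4]
  have hr3 : (3 : ℤ) ≤ r := by exact_mod_cast hr.1
  have hk : (k : ℤ) + 1 - x ≤ g p k := by
    have : k + 1 ≤ x + g p k := by omega
    have h9 : ((k + 1 : ℕ) : ℤ) ≤ ((x + g p k : ℕ) : ℤ) := by exact_mod_cast this
    push_cast at h9
    linarith
  have hrg : (r : ℤ) ≤ g p k := by exact_mod_cast h7.trans h6
  push_cast
  nlinarith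

theorem no_jump (hc : Consecutive p n₀ n) {x : ℕ} (hx1 : n₀ + 1 ≤ x) (hx2 : x ≤ n)
    (h : ∀ q : ℕ, q.Prime → (q : ℤ) ≤ a p x → ¬ (q : ℤ) ∣ p * (S p x) ^ 2 - 1) :
    S p x = n + 1 := by
  have key : ∀ k, x ≤ k → k ≤ n → S p k = S p x := by
    intro k hk
    induction k, hk using Nat.le_induction with
    | base => intro _; rfl
    | succ k hk ih =>
      intro hkn
      have h1 := ih (by omega)
      have h2 := pos_of hc (x := k) (by omega) (by omega)
      have h3 := S_succ (p := p) (x := k) (by omega) h2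
      have h4 := g_pos p k h2
      have h5 : g p k = 1 := by
        by_contra h6
        have h7 : (g p k).minFac.Prime := Nat.minFac_prime h6
        refine h _ h7 ?_ ?_
        · have h8 : (g p k).minFac ≤ g p k := Nat.minFac_le h4
          have h9 : ((g p k).minFac : ℤ) ≤ g p k := by exact_mod_cast h8
          have h10 := g_le p k h2
          have h11 : a p k ≤ a p x := by
            unfold S at h1
            have : (x : ℤ) ≤ k := by exact_mod_cast hk
            omega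
          omega
        · rw [← h1]
          refine dvd_trans ?_ (g_dvd (p := p) (x := k))
          exact_mod_cast Nat.minFac_dvd (g p k)
      rw [h3, h5, h1]
      ring
  rw [← key n hx2 le_rfl, S_last hc]

/-- Lower bound for the prime factors of `p (n + 1) ^ 2 - 1`. -/
theorem factor_gt {r : ℕ} (hr : Low p r) (hp : 1 ≤ p) (hc : Consecutive p n₀ n) {q : ℕ}
    (hq : q.Prime) (hqd : (q : ℤ) ∣ p * ((n : ℤ) + 1) ^ 2 - 1) :
    ((r : ℤ) - 1) * (n - (n₀ + 1)) <
      (r - 1) * q + r * (p * ((n₀ : ℤ) + 1) ^ 2 + (n₀ + 1) - (n + 1)) := by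
  classical
  have hr3 : (3 : ℤ) ≤ r := by exact_mod_cast hr.1
  have hbase : Chk p n₀ n r (n₀ + 1) := by
    refine ⟨le_rfl, hc.2.1, ?_⟩
    rw [S_first hp hc]
    push_cast
    simp
  have hne : ((Finset.range (n + 1)).filter (fun x => Chk p n₀ n r x)).Nonempty :=
    ⟨n₀ + 1, by
      rw [Finset.mem_filter, Finset.mem_range]
      exact ⟨by have := hc.2.1; omega, hbase⟩⟩
  set x := ((Finset.range (n + 1)).filter (fun x => Chk p n₀ n r x)).max' hne with hx
  have hmem := ((Finset.range (n + 1)).filter (fun x => Chk p n₀ n r x)).max'_mem hne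
  rw [← hx, Finset.mem_filter, Finset.mem_range] at hmem
  have hlast : ∀ q : ℕ, q.Prime → (q : ℤ) ≤ a p x → ¬ (q : ℤ) ∣ p * (S p x) ^ 2 - 1 := by
    intro q' h1 h2 h3
    obtain ⟨y, hy1, hy2⟩ := chk_next hr hp hc hmem.2 h1 h2 h3
    have h4 : y ∈ (Finset.range (n + 1)).filter (fun x => Chk p n₀ n r x) := by
      rw [Finset.mem_filter, Finset.mem_range]
      exact ⟨by have := hy2.2.1; omega, hy2⟩
    have h5 := ((Finset.range (n + 1)).filter (fun x => Chk p n₀ n r x)).le_max' y h4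
    omega
  obtain ⟨hx1, hx2, hx3⟩ := hmem.2
  have hS := no_jump hc hx1 hx2 hlast
  have h1 : a p x < q := by
    by_contra h2
    push Not at h2
    apply hlast q hq h2
    rw [hS]
    exact hqd
  have h2 : a p x = n - x := by
    unfold S at hS
    omega
  rw [hS] at hx3
  rw [h2] at h1
  nlinarith

/-- extra credit for `r = 4` -/
def cr (s : ℤ) : ℤ := if s % 3 = 0 then 2 else if s % 3 = 1 then 0 else 1

/-- checkpoints for `p ≡ 1 (mod 3)` -/
def Chk3 (p n₀ n x : ℕ) : Prop :=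
  n₀ + 1 ≤ x ∧ x ≤ n ∧
    3 * ((x : ℤ) - (n₀ + 1)) ≤ 4 * (p * ((n₀ : ℤ) + 1) ^ 2 + (n₀ + 1) - S p x) + cr (S p x)

theorem cr_nonneg (s : ℤ) : 0 ≤ cr s := by unfold cr; split_ifs <;> norm_num

theorem cr_le (s : ℤ) : cr s ≤ 2 := by unfold cr; split_ifs <;> norm_num

theorem chk_next3 (hp3 : p % 3 = 1) (hc : Consecutive p n₀ n) {x : ℕ}
    (hx : Chk3 p n₀ n x) {q : ℕ} (hq : q.Prime) (hqa : (q : ℤ) ≤ a p x)
    (hqd : (q : ℤ) ∣ p * (S p x) ^ 2 - 1) : ∃ y, x < y ∧ Chk3 p n₀ n y := by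
  have hp : 1 ≤ p := by omega
  obtain ⟨hx1, hx2, hx3⟩ := hx
  set P : ℕ := (p * (S p x) ^ 2 - 1).natAbs with hP
  have hqP : q ∣ P := by
    rw [hP, ← Int.natCast_dvd_natCast, Int.dvd_natAbs]
    exact hqd
  have hP1 : P ≠ 1 := by
    intro h
    rw [h, Nat.dvd_one] at hqP
    exact hq.one_lt.ne' hqP
  have hq0 : P.minFac.Prime := Nat.minFac_prime hP1
  have hq0d : (P.minFac : ℤ) ∣ p * (S p x) ^ 2 - 1 := by
    have h := Nat.minFac_dvd P
    rw [← Int.natCast_dvd_natCast] at h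
    rw [← Int.dvd_natAbs]
    exact h
  have hq0q : P.minFac ≤ q := Nat.minFac_le_of_dvd hq.two_le hqP
  obtain ⟨k, h1, h2, h3, h4, h5⟩ := jump hc (x := x) (q := P.minFac) (by omega) hx2 hq0.two_le
    (by have : (P.minFac : ℤ) ≤ q := by exact_mod_cast hq0q
        omega) hq0d
  have h6 : P.minFac ≤ g p k := by
    apply Nat.minFac_le_of_dvd h5
    rw [hP, ← Int.natCast_dvd_natCast, Int.dvd_natAbs, ← h4]
    exact g_dvd
  have hlow : Low p 3 := ⟨le_rfl, fun q _ h h' => by omega⟩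
  have h7 : 3 ≤ P.minFac := low_le hlow hp hc hx1 hx2 hq0 hq0d
  have h8 := S_succ (p := p) (x := k) (by omega) (pos_of hc (by omega) h3)
  refine ⟨k + 1, by omega, by omega, by omega, ?_⟩
  rw [h8, h4]
  have hpm : (p : ℤ) % 3 = 1 := by omega
  set s := S p x with hs
  obtain ⟨u, hu⟩ : ∃ u : ℤ, (p : ℤ) = 3 * u + 1 := ⟨p / 3, by omega⟩
  have hkq : (k : ℤ) + 1 - x ≤ P.minFac := by
    have : k + 1 ≤ x + P.minFac := by omega
    have h9 : ((k + 1 : ℕ) : ℤ) ≤ ((x + P.minFac : ℕ) : ℤ) := by exact_mod_cast this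
    push_cast at h9
    linarith
  have hqg : (P.minFac : ℤ) ≤ g p k := by exact_mod_cast h6
  have hcn := cr_nonneg (s + 1 - g p k)
  rcases (by omega : s % 3 = 0 ∨ s % 3 = 1 ∨ s % 3 = 2) with h0 | h0 | h0
  · -- `3 ∣ s`
    obtain ⟨v, hv⟩ : ∃ v : ℤ, s = 3 * v := ⟨s / 3, by omega⟩
    have hne3 : P.minFac ≠ 3 := by
      intro h
      rw [h] at hq0d
      obtain ⟨w, hw⟩ := hq0d
      rw [hv] at hw
      have : (3 : ℤ) * (p * (3 * v ^ 2) - w) = 1 := by push_cast at hw; linarith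
      omega
    have hne4 : P.minFac ≠ 4 := by
      intro h
      rw [h] at hq0
      exact absurd hq0 (by decide)
    have hge5 : (5 : ℤ) ≤ P.minFac := by exact_mod_cast (by omega)
    have hcs : cr s = 2 := by unfold cr; rw [if_pos h0]
    rw [hcs] at hx3
    have hcg : (6 : ℤ) ≤ g p k + cr (s + 1 - g p k) := by
      by_cases hg5 : (g p k : ℤ) = 5
      · have : cr (s + 1 - g p k) = 1 := by
          unfold cr
          rw [hg5, if_neg (by omega), if_neg (by omega)]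
        omega
      · omega
    push_cast
    linarith
  · have hd3 : (3 : ℤ) ∣ p * s ^ 2 - 1 := by
      obtain ⟨v, hv⟩ : ∃ v : ℤ, s = 3 * v + 1 := ⟨s / 3, by omega⟩
      rw [hu, hv]
      exact ⟨9 * u * v ^ 2 + 6 * u * v + u + 3 * v ^ 2 + 2 * v, by ring⟩
    have hmf : P.minFac ≤ 3 := by
      apply Nat.minFac_le_of_dvd (by norm_num)
      rw [hP, ← Int.natCast_dvd_natCast, Int.dvd_natAbs]
      exact hd3
    have hmf' : (P.minFac : ℤ) ≤ 3 := by exact_mod_cast hmf
    have hcs : cr s = 0 := by unfold cr; rw [if_neg (by omega), if_pos h0]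
    rw [hcs] at hx3
    have h3g : (3 : ℤ) ≤ g p k := by exact_mod_cast h7.trans h6
    have hcg : (9 : ℤ) ≤ 4 * (g p k - 1) + cr (s + 1 - g p k) := by
      by_cases hg3 : (g p k : ℤ) = 3
      · have : cr (s + 1 - g p k) = 1 := by
          unfold cr
          rw [hg3, if_neg (by omega), if_neg (by omega)]
        omega
      · omega
    push_cast
    linarith
  · have hd3 : (3 : ℤ) ∣ p * s ^ 2 - 1 := by
      obtain ⟨v, hv⟩ : ∃ v : ℤ, s = 3 * v + 2 := ⟨s / 3, by omega⟩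
      rw [hu, hv]
      exact ⟨9 * u * v ^ 2 + 12 * u * v + 4 * u + 3 * v ^ 2 + 4 * v + 1, by ring⟩
    have hmf : P.minFac ≤ 3 := by
      apply Nat.minFac_le_of_dvd (by norm_num)
      rw [hP, ← Int.natCast_dvd_natCast, Int.dvd_natAbs]
      exact hd3
    have hmf' : (P.minFac : ℤ) ≤ 3 := by exact_mod_cast hmf
    have hcs : cr s = 1 := by unfold cr; rw [if_neg (by omega), if_neg (by omega)]
    rw [hcs] at hx3
    have h3g : (3 : ℤ) ≤ g p k := by exact_mod_cast h7.trans h6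
    have hcg : (10 : ℤ) ≤ 4 * (g p k - 1) + cr (s + 1 - g p k) := by
      by_cases hg3 : (g p k : ℤ) = 3
      · have : cr (s + 1 - g p k) = 2 := by
          unfold cr
          rw [hg3, if_pos (by omega)]
        omega
      · omega
    push_cast
    linarith

theorem factor_gt3 (hp3 : p % 3 = 1) (hc : Consecutive p n₀ n) {q : ℕ}
    (hq : q.Prime) (hqd : (q : ℤ) ∣ p * ((n : ℤ) + 1) ^ 2 - 1) :
    3 * ((n : ℤ) - (n₀ + 1)) <
      3 * q + 4 * (p * ((n₀ : ℤ) + 1) ^ 2 + (n₀ + 1) - (n + 1)) + 2 := by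
  classical
  have hp : 1 ≤ p := by omega
  have hbase : Chk3 p n₀ n (n₀ + 1) := by
    refine ⟨le_rfl, hc.2.1, ?_⟩
    rw [S_first hp hc]
    have := cr_nonneg (p * ((n₀ : ℤ) + 1) ^ 2 + (n₀ + 1))
    push_cast
    linarith
  have hne : ((Finset.range (n + 1)).filter (fun x => Chk3 p n₀ n x)).Nonempty :=
    ⟨n₀ + 1, by
      rw [Finset.mem_filter, Finset.mem_range]
      exact ⟨by have := hc.2.1; omega, hbase⟩⟩
  set x := ((Finset.range (n + 1)).filter (fun x => Chk3 p n₀ n x)).max' hne with hx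
  have hmem := ((Finset.range (n + 1)).filter (fun x => Chk3 p n₀ n x)).max'_mem hne
  rw [← hx, Finset.mem_filter, Finset.mem_range] at hmem
  have hlast : ∀ q : ℕ, q.Prime → (q : ℤ) ≤ a p x → ¬ (q : ℤ) ∣ p * (S p x) ^ 2 - 1 := by
    intro q' h1 h2 h3
    obtain ⟨y, hy1, hy2⟩ := chk_next3 hp3 hc hmem.2 h1 h2 h3
    have h4 : y ∈ (Finset.range (n + 1)).filter (fun x => Chk3 p n₀ n x) := by
      rw [Finset.mem_filter, Finset.mem_range]
      exact ⟨by have := hy2.2.1; omega, hy2⟩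
    have h5 := ((Finset.range (n + 1)).filter (fun x => Chk3 p n₀ n x)).le_max' y h4
    omega
  obtain ⟨hx1, hx2, hx3⟩ := hmem.2
  have hS := no_jump hc hx1 hx2 hlast
  have h1 : a p x < q := by
    by_contra h2
    push Not at h2
    apply hlast q hq h2
    rw [hS]
    exact hqd
  have h2 : a p x = n - x := by
    unfold S at hS
    omega
  have h3 := cr_le (S p x)
  rw [hS] at hx3 h3
  rw [h2] at h1
  linarith

/-- Lower bound for the prime factors of `p (n + 1) ^ 2 - 1`, all admissible `r`. -/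
theorem factor_gt_adm {r : ℕ} (hr : Admissible p r) (hp : 1 ≤ p)
    (hle : (n : ℤ) + 1 ≤ p * ((n₀ : ℤ) + 1) ^ 2 + (n₀ + 1)) (hc : Consecutive p n₀ n)
    {q : ℕ} (hq : q.Prime) (hqd : (q : ℤ) ∣ p * ((n : ℤ) + 1) ^ 2 - 1) :
    ((r : ℤ) - 1) * (n - (n₀ + 1)) <
      (r - 1) * q + r * (p * ((n₀ : ℤ) + 1) ^ 2 + (n₀ + 1) - (n + 1)) + 2 := by
  rcases hr with rfl | ⟨hr5, hr⟩
  · by_cases hp3 : p % 3 = 1
    · have h := factor_gt3 hp3 hc hq hqd
      push_cast
      linarith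
    · have hlow : Low p 5 := by
        refine ⟨by norm_num, fun q hq h1 h2 s hs => ?_⟩
        have hq3 : q = 3 := by
          have : q ≠ 4 := by
            rintro rfl
            exact absurd hq (by decide)
          omega
        subst hq3
        obtain ⟨w, hw⟩ := hs
        rcases (by omega : p % 3 = 0 ∨ p % 3 = 2) with h3 | h3
        · obtain ⟨u, hu⟩ : ∃ u : ℤ, (p : ℤ) = 3 * u := ⟨p / 3, by omega⟩
          rw [hu] at hw
          have : (3 : ℤ) * (u * s ^ 2 - w) = 1 := by push_cast at hw; linarith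
          omega
        · obtain ⟨u, hu⟩ : ∃ u : ℤ, (p : ℤ) = 3 * u + 2 := ⟨p / 3, by omega⟩
          rcases (by omega : s % 3 = 0 ∨ s % 3 = 1 ∨ s % 3 = 2) with h0 | h0 | h0
          · obtain ⟨v, hv⟩ : ∃ v : ℤ, s = 3 * v := ⟨s / 3, by omega⟩
            rw [hv] at hw
            have : (3 : ℤ) * (p * (3 * v ^ 2) - w) = 1 := by push_cast at hw; linarith
            omega
          · obtain ⟨v, hv⟩ : ∃ v : ℤ, s = 3 * v + 1 := ⟨s / 3, by omega⟩
            rw [hu, hv] at hw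
            have : (3 : ℤ) * (9 * u * v ^ 2 + 6 * u * v + u + 6 * v ^ 2 + 4 * v - w) = -1 := by
              push_cast at hw; linarith
            omega
          · obtain ⟨v, hv⟩ : ∃ v : ℤ, s = 3 * v + 2 := ⟨s / 3, by omega⟩
            rw [hu, hv] at hw
            have : (3 : ℤ) * (9 * u * v ^ 2 + 12 * u * v + 4 * u + 6 * v ^ 2 + 8 * v + 2 - w) =
                -1 := by
              push_cast at hw; linarith
            omega
      have h := factor_gt hlow hp hc hq hqd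
      push_cast at h ⊢
      linarith
  · have h := factor_gt (r := r) ⟨by omega, hr⟩ hp hc hq hqd
    linarith

end Run

end Pool.Agent.GZ72
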