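import Pool.Agent.GZ72.Half

/-!
# GZ72/Sieve: the density of the blocked levels
-/

set_option autoImplicit false

namespace Pool.Agent.GZ72

/-- `∏ (1 - 2 / l)` over the odd primes `l ≤ G` -/
noncomputable def be : ℕ → ℝ
  | 0 => 1
  | (G + 1) => if (G + 1).Prime ∧ 3 ≤ G + 1 then be G * (1 - 2 / ((G : ℝ) + 1)) else be G

theorem be_pos : ∀ G, 0 < be G
  | 0 => one_pos
  | (G + 1) => by
    unfold be
    split_ifs with h
    · have h2 : (2 : ℝ) < (G : ℝ) + 1 := by
        have : (3 : ℝ) ≤ ((G + 1 : ℕ) : ℝ) := by exact_mod_cast h.2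
        push_cast at this
        linarith
      have h3 : 2 / ((G : ℝ) + 1) < 1 := by rw [div_lt_one (by linarith)]; exact h2
      exact mul_pos (be_pos G) (by linarith)
    · exact be_pos G

/-- `(2 j + 1) be (2 j + 1)` -/
noncomputable def hh (j : ℕ) : ℝ := (2 * j + 1) * be (2 * j + 1)

theorem be_even (j : ℕ) : be (2 * j + 2) = be (2 * j + 1) := by
  rw [be, if_neg]
  rintro ⟨h1, h2⟩
  have : 2 ∣ 2 * j + 1 + 1 := ⟨j + 1, by ring⟩
  rcases (Nat.dvd_prime h1).1 this with h | h <;> omega

theorem hh_succ (j : ℕ) : hh j ≤ hh (j + 1) ∧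
    (¬ (2 * j + 3).Prime → hh (j + 1) = hh j * ((2 * j + 3) / (2 * j + 1))) := by
  have h1 : be (2 * (j + 1) + 1) = if (2 * j + 3).Prime then be (2 * j + 1) *
      (1 - 2 / (2 * (j : ℝ) + 3)) else be (2 * j + 1) := by
    rw [show 2 * (j + 1) + 1 = (2 * j + 2) + 1 by ring, be, be_even]
    by_cases h : (2 * j + 3).Prime
    · rw [if_pos ⟨h, by omega⟩, if_pos h]
      push_cast
      ring_nf
    · rw [if_neg (fun h' => h h'.1), if_neg h]
  have hb := be_pos (2 * j + 1)
  have hj : (0 : ℝ) ≤ j := Nat.cast_nonneg _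
  unfold hh
  rw [h1]
  by_cases h : (2 * j + 3).Prime
  · rw [if_pos h]
    refine ⟨?_, fun h' => absurd h h'⟩
    have h2 : (2 * ((j + 1 : ℕ) : ℝ) + 1) * (be (2 * j + 1) * (1 - 2 / (2 * (j : ℝ) + 3))) =
        (2 * j + 1) * be (2 * j + 1) := by
      push_cast
      field_simp
      ring
    rw [h2]
  · rw [if_neg h]
    constructor
    · apply mul_le_mul_of_nonneg_right _ hb.le
      push_cast
      linarith
    · intro _
      push_cast
      field_simp
      ring

theorem hh_mono {i j : ℕ} (h : i ≤ j) : hh i ≤ hh j := by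
  induction j, h using Nat.le_induction with
  | base => exact le_rfl
  | succ j _ ih => exact ih.trans (hh_succ j).1

theorem hh_one {j : ℕ} : 1 ≤ hh j := by
  have h0 : hh 0 = 1 := by
    unfold hh
    rw [show 2 * 0 + 1 = 0 + 1 by ring, be, if_neg (by omega), be]
    norm_num
  rw [← h0]
  exact hh_mono (Nat.zero_le j)

theorem hh_cube (s : ℕ) (hs : 1 ≤ s) : (3 * (s : ℝ) + 1) / 4 ≤ hh (3 * s) ^ 3 := by
  induction s, hs using Nat.le_induction with
  | base =>
    have h := hh_one (j := 3 * 1)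
    have h2 : (1 : ℝ) ≤ hh (3 * 1) ^ 3 := one_le_pow₀ h
    norm_num at h2 ⊢
    linarith
  | succ s hs ih =>
    have hnp : ¬ (2 * (3 * s) + 3).Prime := by
      intro h
      have h3 : 3 ∣ 2 * (3 * s) + 3 := ⟨2 * s + 1, by ring⟩
      rcases (Nat.dvd_prime h).1 h3 with h4 | h4 <;> omega
    have h1 := (hh_succ (3 * s)).2 hnp
    have h2 : hh (3 * s + 1) ≤ hh (3 * (s + 1)) := hh_mono (by omega)
    have hs' : (1 : ℝ) ≤ s := by exact_mod_cast hs
    have h0 : 0 < hh (3 * s) := lt_of_lt_of_le one_pos hh_one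
    have h3 : hh (3 * s) * (1 + 2 / (6 * s + 1)) ≤ hh (3 * (s + 1)) := by
      have h4 : (2 * ((3 * s : ℕ) : ℝ) + 3) / (2 * ((3 * s : ℕ) : ℝ) + 1) = 1 + 2 / (6 * s + 1) := by
        push_cast
        field_simp
        ring
      rw [← h4, ← h1]
      exact h2
    have h5 : (hh (3 * s) * (1 + 2 / (6 * s + 1))) ^ 3 ≤ hh (3 * (s + 1)) ^ 3 :=
      pow_le_pow_left₀ (by positivity) h3 3
    have h6 : 1 + 6 / (6 * (s : ℝ) + 1) ≤ (1 + 2 / (6 * (s : ℝ) + 1)) ^ 3 := by
      have hu : 0 ≤ 2 / (6 * (s : ℝ) + 1) := by positivity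
      have : 6 / (6 * (s : ℝ) + 1) = 3 * (2 / (6 * (s : ℝ) + 1)) := by ring
      rw [this]
      nlinarith [mul_nonneg hu hu, mul_nonneg hu (mul_nonneg hu hu)]
    have h7 : (3 * (s : ℝ) + 1) / 4 * (1 + 6 / (6 * (s : ℝ) + 1)) ≤
        hh (3 * s) ^ 3 * (1 + 2 / (6 * (s : ℝ) + 1)) ^ 3 :=
      mul_le_mul ih h6 (by positivity) (by positivity)
    have h8 : (3 * ((s + 1 : ℕ) : ℝ) + 1) / 4 ≤ (3 * (s : ℝ) + 1) / 4 * (1 + 6 / (6 * (s : ℝ) + 1)) := by
      push_cast
      rw [← sub_nonneg]
      have : (3 * (s : ℝ) + 1) / 4 * (1 + 6 / (6 * (s : ℝ) + 1)) - (3 * ((s : ℝ) + 1) + 1) / 4 =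
          3 / (4 * (6 * s + 1)) := by
        field_simp
        ring
      rw [this]
      positivity
    rw [mul_pow] at h5
    linarith

theorem hh_large (K : ℝ) : ∃ j, K ≤ hh j := by
  obtain ⟨s, hs⟩ := exists_nat_gt (4 * |K| ^ 3)
  refine ⟨3 * (s + 1), ?_⟩
  have h1 := hh_cube (s + 1) (by omega)
  by_contra h
  push Not at h
  have h2 : hh (3 * (s + 1)) < |K| := lt_of_lt_of_le h (le_abs_self K)
  have h0 : 0 < hh (3 * (s + 1)) := lt_of_lt_of_le one_pos hh_one
  have h3 : hh (3 * (s + 1)) ^ 3 < |K| ^ 3 := pow_lt_pow_left₀ h2 h0.le (by norm_num)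
  push_cast at h1
  have : (0 : ℝ) ≤ s := Nat.cast_nonneg _
  linarith

/-- at most two roots -/
theorem roots_le {p l Q b : ℕ} (hl : l.Prime) (hl3 : 3 ≤ l) (hQ : Nat.Coprime Q l) :
    ((Finset.range l).filter (fun k => (l : ℤ) ∣ p * ((b + Q * k : ℕ) : ℤ) ^ 2 - 4)).card ≤ 2 := by
  classical
  have : Fact l.Prime := ⟨hl⟩
  set F := (Finset.range l).filter (fun k => (l : ℤ) ∣ p * ((b + Q * k : ℕ) : ℤ) ^ 2 - 4) with hF
  rcases F.eq_empty_or_nonempty with h | ⟨k0, hk0⟩
  · rw [h]; simp
  · have hz : ∀ k ∈ F, (p : ZMod l) * ((b + Q * k : ℕ) : ZMod l) ^ 2 = 4 := by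
      intro k hk
      rw [hF, Finset.mem_filter] at hk
      have h1 := (ZMod.intCast_zmod_eq_zero_iff_dvd _ l).2 hk.2
      push_cast at h1 ⊢
      exact sub_eq_zero.1 h1
    set z0 : ZMod l := ((b + Q * k0 : ℕ) : ZMod l) with hz0
    have h4 : (4 : ZMod l) ≠ 0 := by
      intro h
      have h5 : ((4 : ℕ) : ZMod l) = 0 := by exact_mod_cast h
      rw [ZMod.natCast_eq_zero_iff] at h5
      have h6 : l ∣ 2 ^ 2 := h5
      have h7 := hl.dvd_of_dvd_pow h6
      have h8 := Nat.le_of_dvd (by norm_num) h7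
      omega
    have hp0 : (p : ZMod l) ≠ 0 := by
      intro h
      have := hz k0 hk0
      rw [h, zero_mul] at this
      exact h4 this.symm
    have hsub : ∀ k ∈ F, ((b + Q * k : ℕ) : ZMod l) ∈ ({z0, -z0} : Finset (ZMod l)) := by
      intro k hk
      have h1 := hz k hk
      have h2 := hz k0 hk0
      rw [← h2] at h1
      have h3 := mul_left_cancel₀ hp0 h1
      rw [Finset.mem_insert, Finset.mem_singleton]
      exact sq_eq_sq_iff_eq_or_eq_neg.1 h3
    have hinj : Set.InjOn (fun k : ℕ => ((b + Q * k : ℕ) : ZMod l)) (F : Set ℕ) := by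
      intro k hk k' hk' h
      rw [Finset.mem_coe, hF, Finset.mem_filter, Finset.mem_range] at hk hk'
      simp only at h
      push_cast at h
      have h1 : (Q : ZMod l) * k = Q * k' := add_left_cancel h
      have hQ0 : (Q : ZMod l) ≠ 0 := by
        intro h2
        rw [ZMod.natCast_eq_zero_iff] at h2
        have h3 : l ∣ Nat.gcd Q l := Nat.dvd_gcd h2 dvd_rfl
        rw [hQ] at h3
        exact hl.one_lt.ne' (Nat.dvd_one.1 h3)
      have h2 := mul_left_cancel₀ hQ0 h1
      rw [ZMod.natCast_eq_natCast_iff'] at h2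
      rwa [Nat.mod_eq_of_lt hk.1, Nat.mod_eq_of_lt hk'.1] at h2
    have h := Finset.card_le_card_of_injOn (s := F) (t := ({z0, -z0} : Finset (ZMod l))) _ hsub hinj
    exact h.trans Finset.card_le_two

/-- a period with many blocked levels -/
theorem period (p : ℕ) : ∀ G : ℕ, ∃ Q : ℕ, 1 ≤ Q ∧ (∀ q : ℕ, q.Prime → q ∣ Q → q ≤ G) ∧
    (∀ y, Blocked p G (y + Q) ↔ Blocked p G y) ∧ be G * Q ≤ cnt p G 0 Q := by
  classical
  intro G
  induction G with
  | zero =>
    refine ⟨1, le_rfl, fun q hq h => ?_, fun y => ?_, ?_⟩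
    · exact absurd (Nat.dvd_one.1 h) hq.one_lt.ne'
    · constructor <;> intro _ l _ h1 h2 <;> omega
    · have h : cnt p 0 0 1 = 1 := by
        unfold cnt
        rw [Finset.filter_true_of_mem]
        · simp
        · intro y _ l _ h1 h2
          omega
      rw [h, be]
      norm_num
  | succ G ih =>
    obtain ⟨Q, hQ1, hQp, hper, hc⟩ := ih
    by_cases hG : (G + 1).Prime ∧ 3 ≤ G + 1
    · obtain ⟨hl, hl3⟩ := hG
      have hcop : Nat.Coprime Q (G + 1) := by
        rw [Nat.coprime_comm, Nat.Prime.coprime_iff_not_dvd hl]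
        intro h
        have := hQp _ hl h
        omega
      have hiff : ∀ y, Blocked p (G + 1) y ↔
          Blocked p G y ∧ ¬ ((G + 1 : ℕ) : ℤ) ∣ p * (y : ℤ) ^ 2 - 4 := by
        intro y
        constructor
        · intro h
          exact ⟨fun l h1 h2 h3 => h l h1 h2 (by omega), h _ hl hl3 le_rfl⟩
        · rintro ⟨h1, h2⟩ l h3 h4 h5
          rcases Nat.lt_or_ge l (G + 1) with h6 | h6
          · exact h1 l h3 h4 (by omega)
          · obtain rfl : l = G + 1 := by omega
            exact h2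
      have hperk : ∀ k y, Blocked p G (y + Q * k) ↔ Blocked p G y := by
        intro k
        induction k with
        | zero => intro y; simp
        | succ k ihk =>
          intro y
          rw [show y + Q * (k + 1) = (y + Q * k) + Q by ring, hper, ihk]
      refine ⟨Q * (G + 1), Nat.mul_pos hQ1 (by omega), ?_, ?_, ?_⟩
      · intro q hq h
        rcases hq.dvd_mul.1 h with h1 | h1
        · have := hQp q hq h1
          omega
        · exact Nat.le_of_dvd (by omega) h1
      · intro y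
        rw [hiff, hiff, hperk]
        have h1 : (((G + 1 : ℕ) : ℤ) ∣ p * ((y + Q * (G + 1) : ℕ) : ℤ) ^ 2 - 4) ↔
            (((G + 1 : ℕ) : ℤ) ∣ p * (y : ℤ) ^ 2 - 4) := by
          have h2 : (p : ℤ) * ((y + Q * (G + 1) : ℕ) : ℤ) ^ 2 - 4 = (p * (y : ℤ) ^ 2 - 4) +
              ((G + 1 : ℕ) : ℤ) * (p * Q * (2 * y + Q * (G + 1))) := by
            push_cast
            ring
          rw [h2]
          exact dvd_add_left (dvd_mul_right _ _)
        rw [h1]
      · set B := (Finset.Ico 0 Q).filter (fun y => Blocked p G y) with hB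
        have hBc : cnt p G 0 Q = B.card := by
          unfold cnt
          rw [hB]
        set R : ℕ → Finset ℕ := fun b => (Finset.range (G + 1)).filter
          (fun k => ¬ ((G + 1 : ℕ) : ℤ) ∣ p * ((b + Q * k : ℕ) : ℤ) ^ 2 - 4) with hR
        have hRc : ∀ b, G - 1 ≤ (R b).card := by
          intro b
          have h1 := roots_le (p := p) (b := b) hl hl3 hcop
          have h2 := Finset.card_filter_add_card_filter_not (s := Finset.range (G + 1))
            (fun k => ((G + 1 : ℕ) : ℤ) ∣ p * ((b + Q * k : ℕ) : ℤ) ^ 2 - 4)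
          rw [Finset.card_range] at h2
          have h3 : (R b).card = ((Finset.range (G + 1)).filter
            (fun k => ¬ ((G + 1 : ℕ) : ℤ) ∣ p * ((b + Q * k : ℕ) : ℤ) ^ 2 - 4)).card := rfl
          omega
        have hcard : (B.sigma R).card ≤ cnt p (G + 1) 0 (Q * (G + 1)) := by
          unfold cnt
          apply Finset.card_le_card_of_injOn (fun s : (Σ _ : ℕ, ℕ) => s.1 + Q * s.2)
          · rintro ⟨b, k⟩ hbk
            rw [Finset.mem_coe, Finset.mem_sigma] at hbk
            obtain ⟨h1, h2⟩ := hbk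
            rw [hB, Finset.mem_filter, Finset.mem_Ico] at h1
            simp only [hR, Finset.mem_filter, Finset.mem_range] at h2
            simp only [Finset.coe_filter, Set.mem_ofPred_eq, Finset.mem_Ico]
            refine ⟨⟨Nat.zero_le _, ?_⟩, ?_⟩
            · have h3 : Q * k + Q ≤ Q * (G + 1) := by
                calc Q * k + Q = Q * (k + 1) := by ring
                  _ ≤ Q * (G + 1) := Nat.mul_le_mul_left _ (by omega)
              have h9 : b < Q := h1.1.2
              show b + Q * k < Q * (G + 1)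
              omega
            · rw [hiff, hperk]
              exact ⟨h1.2, h2.2⟩
          · rintro ⟨b, k⟩ hbk ⟨b', k'⟩ hbk' h
            rw [Finset.mem_coe, Finset.mem_sigma] at hbk hbk'
            have h1 := hbk.1
            have h2 := hbk'.1
            rw [hB, Finset.mem_filter, Finset.mem_Ico] at h1 h2
            simp only at h h1 h2
            have h3 : b = b' := by
              have := congrArg (· % Q) h
              simp only [Nat.add_mul_mod_self_left] at this
              rwa [Nat.mod_eq_of_lt h1.1.2, Nat.mod_eq_of_lt h2.1.2] at this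
            subst h3
            have h4 : Q * k = Q * k' := by omega
            have h5 : k = k' := Nat.eq_of_mul_eq_mul_left hQ1 h4
            subst h5
            rfl
        rw [Finset.card_sigma] at hcard
        have hsum : B.card * (G - 1) ≤ ∑ b ∈ B, (R b).card := by
          rw [← smul_eq_mul, ← Finset.sum_const]
          exact Finset.sum_le_sum fun b _ => hRc b
        have hfin : B.card * (G - 1) ≤ cnt p (G + 1) 0 (Q * (G + 1)) := hsum.trans hcard
        have hfin' : (B.card : ℝ) * (G - 1) ≤ cnt p (G + 1) 0 (Q * (G + 1)) := by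
          have h1 : ((B.card * (G - 1) : ℕ) : ℝ) ≤ (cnt p (G + 1) 0 (Q * (G + 1)) : ℕ) := by
            exact_mod_cast hfin
          rw [Nat.cast_mul, Nat.cast_sub (by omega)] at h1
          push_cast at h1
          exact h1
        rw [hBc] at hc
        have hbe : be (G + 1) = be G * (1 - 2 / ((G : ℝ) + 1)) := by
          rw [be, if_pos ⟨hl, hl3⟩]
        have hG2 : (2 : ℝ) ≤ G := by exact_mod_cast (by omega)
        rw [hbe]
        have h1 : be G * (1 - 2 / ((G : ℝ) + 1)) * ((Q * (G + 1) : ℕ) : ℝ) =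
            (be G * Q) * (G - 1) := by
          push_cast
          field_simp
          ring
        rw [h1]
        exact (mul_le_mul_of_nonneg_right hc (by linarith)).trans hfin'
    · have hiff : ∀ y, Blocked p (G + 1) y ↔ Blocked p G y := by
        intro y
        constructor
        · intro h l h1 h2 h3
          exact h l h1 h2 (by omega)
        · intro h l h1 h2 h3
          rcases Nat.lt_or_ge l (G + 1) with h6 | h6
          · exact h l h1 h2 (by omega)
          · obtain rfl : l = G + 1 := by omega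
            exact absurd ⟨h1, h2⟩ hG
      refine ⟨Q, hQ1, fun q hq h => (hQp q hq h).trans (by omega), ?_, ?_⟩
      · intro y
        rw [hiff, hiff, hper]
      · rw [be, if_neg hG]
        have : cnt p (G + 1) 0 Q = cnt p G 0 Q := by
          unfold cnt
          congr 1
          apply Finset.filter_congr
          intro y _
          exact hiff y
        rw [this]
        exact hc

theorem cnt_period {p G Q : ℕ} (hper : ∀ y, Blocked p G (y + Q) ↔ Blocked p G y) (A m : ℕ) :
    cnt p G A (A + Q * m) = m * cnt p G 0 Q := by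
  classical
  have hP : Function.Periodic (fun y => Blocked p G y) Q := fun y => propext (hper y)
  have hone : ∀ A, cnt p G A (A + Q) = cnt p G 0 Q := by
    intro A
    have h1 := Nat.filter_Ico_card_eq_of_periodic A Q (fun y => Blocked p G y) hP
    have h2 := Nat.filter_Ico_card_eq_of_periodic 0 Q (fun y => Blocked p G y) hP
    rw [zero_add] at h2
    unfold cnt
    convert h1.trans h2.symm
  induction m with
  | zero => simp [cnt]
  | succ m ih =>
    have h1 : cnt p G A (A + Q * (m + 1)) = cnt p G A (A + Q * m) +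
        cnt p G (A + Q * m) (A + Q * m + Q) := by
      unfold cnt
      rw [show A + Q * (m + 1) = A + Q * m + Q by ring, ← Finset.card_union_of_disjoint,
        ← Finset.filter_union, Finset.Ico_union_Ico_eq_Ico (by omega) (by omega)]
      apply Finset.disjoint_filter_filter
      exact Finset.Ico_disjoint_Ico_consecutive _ _ _
    rw [h1, ih, hone]
    ring

theorem sieve (p : ℕ) (K : ℝ) (hK : 0 ≤ K) :
    ∃ G Q : ℕ, ∀ A D : ℕ, K * ((D : ℝ) - Q) ≤ G * cnt p G A (A + D) := by
  obtain ⟨j, hj⟩ := hh_large K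
  obtain ⟨Q, hQ1, -, hper, hc⟩ := period p (2 * j + 1)
  refine ⟨2 * j + 1, Q, fun A D => ?_⟩
  have hrhs : (0 : ℝ) ≤ ((2 * j + 1 : ℕ) : ℝ) * cnt p (2 * j + 1) A (A + D) := by positivity
  rcases Nat.lt_or_ge D Q with h | h
  · have h1 : (D : ℝ) - Q ≤ 0 := by
      have : (D : ℝ) < Q := by exact_mod_cast h
      linarith
    exact (mul_nonpos_of_nonneg_of_nonpos hK h1).trans hrhs
  · have h1 : (0 : ℝ) ≤ (D : ℝ) - Q := by
      have : (Q : ℝ) ≤ D := by exact_mod_cast h
      linarith
    have hdm := Nat.div_add_mod D Q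
    have hlt := Nat.mod_lt D (show 0 < Q from hQ1)
    have h2 : (D : ℝ) - Q ≤ Q * (D / Q : ℕ) := by
      have : (D : ℝ) ≤ ((Q * (D / Q) + Q : ℕ) : ℝ) := by exact_mod_cast (by omega)
      push_cast at this
      linarith
    have h3 : cnt p (2 * j + 1) A (A + Q * (D / Q)) ≤ cnt p (2 * j + 1) A (A + D) :=
      cnt_mono (by omega)
    rw [cnt_period hper] at h3
    have h3' : ((D / Q : ℕ) : ℝ) * cnt p (2 * j + 1) 0 Q ≤ cnt p (2 * j + 1) A (A + D) := by
      exact_mod_cast h3
    have h4 : ((2 * j + 1 : ℕ) : ℝ) * be (2 * j + 1) = hh j := by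
      unfold hh; push_cast; ring
    have h5 : K * ((D : ℝ) - Q) ≤ hh j * (Q * (D / Q : ℕ)) :=
      mul_le_mul hj h2 h1 (hK.trans hj)
    have h6 : hh j * (Q * (D / Q : ℕ)) =
        ((2 * j + 1 : ℕ) : ℝ) * ((D / Q : ℕ) * (be (2 * j + 1) * Q)) := by
      rw [← h4]; ring
    have h7 : ((D / Q : ℕ) : ℝ) * (be (2 * j + 1) * Q) ≤ (D / Q : ℕ) * cnt p (2 * j + 1) 0 Q :=
      mul_le_mul_of_nonneg_left hc (Nat.cast_nonneg _)
    calc K * ((D : ℝ) - Q) ≤ hh j * (Q * (D / Q : ℕ)) := h5
      _ = ((2 * j + 1 : ℕ) : ℝ) * ((D / Q : ℕ) * (be (2 * j + 1) * Q)) := h6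
      _ ≤ ((2 * j + 1 : ℕ) : ℝ) * cnt p (2 * j + 1) A (A + D) :=
          mul_le_mul_of_nonneg_left (h7.trans h3') (Nat.cast_nonneg _)

end Pool.Agent.GZ72
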