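import Pool.Agent.GZ72.Main

/-!
# GZ72/Two: at most two prime factors
-/

set_option autoImplicit false

namespace Pool.Agent.GZ72

variable {p n₀ n : ℕ}

theorem S_le (hp : 1 ≤ p) (hc : Consecutive p n₀ n) :
    (n : ℤ) + 1 ≤ p * ((n₀ : ℤ) + 1) ^ 2 + (n₀ + 1) := by
  have key : ∀ k, n₀ + 1 ≤ k → k ≤ n → S p k ≤ S p (n₀ + 1) := by
    intro k hk
    induction k, hk using Nat.le_induction with
    | base => intro _; exact le_rfl
    | succ k hk ih =>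
      intro hkn
      have h1 := ih (by omega)
      have h2 := pos_of hc (x := k) (by omega) (by omega)
      have h3 := S_succ (p := p) (x := k) (by omega) h2
      have h4 := g_pos p k h2
      omega
  have h := key n hc.2.1 le_rfl
  rw [S_last hc, S_first hp hc] at h
  exact h

/-- A number below `B ^ 3` all of whose prime factors exceed `B` has at most two prime factors. -/
theorem prime_or {N : ℕ} {B : ℝ} (hB : 0 ≤ B) (hN : 2 ≤ N) (hNB : (N : ℝ) < B ^ 3)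
    (h : ∀ q : ℕ, q.Prime → q ∣ N → B < q) :
    N.Prime ∨ ∃ q₁ q₂ : ℕ, q₁.Prime ∧ q₂.Prime ∧ B < q₁ ∧ q₁ ≤ q₂ ∧ N = q₁ * q₂ := by
  have hq1 : N.minFac.Prime := Nat.minFac_prime (by omega)
  obtain ⟨N1, hN1⟩ := Nat.minFac_dvd N
  set q1 := N.minFac with hq1def
  rcases Nat.eq_or_lt_of_le (show 1 ≤ N1 from Nat.pos_of_ne_zero (by rintro rfl; omega)) with
    h1 | h1
  · left
    rw [hN1, ← h1, mul_one]
    exact hq1
  · right
    have hq2 : N1.minFac.Prime := Nat.minFac_prime (by omega)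
    obtain ⟨N2, hN2⟩ := Nat.minFac_dvd N1
    set q2 := N1.minFac with hq2def
    have hq2N : q2 ∣ N := by rw [hN1, hN2]; exact ⟨q1 * N2, by ring⟩
    have hq12 : q1 ≤ q2 := Nat.minFac_le_of_dvd hq2.two_le hq2N
    have hb1 := h q1 hq1 (by rw [hN1]; exact dvd_mul_right _ _)
    rcases Nat.eq_or_lt_of_le (show 1 ≤ N2 from Nat.pos_of_ne_zero (by rintro rfl; omega)) with
      h2 | h2
    · refine ⟨q1, q2, hq1, hq2, hb1, hq12, ?_⟩
      rw [← h2, mul_one] at hN2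
      rw [hN1, hN2]
    · exfalso
      have hq3 : N2.minFac.Prime := Nat.minFac_prime (by omega)
      obtain ⟨N3, hN3⟩ := Nat.minFac_dvd N2
      set q3 := N2.minFac with hq3def
      have hN3pos : 1 ≤ N3 := Nat.pos_of_ne_zero (by rintro rfl; omega)
      have hNeq : N = q1 * q2 * q3 * N3 := by rw [hN1, hN2, hN3]; ring
      have hb2 := h q2 hq2 hq2N
      have hb3 := h q3 hq3 (by rw [hNeq]; exact ⟨q1 * q2 * N3, by ring⟩)
      have h5 : ((q1 * q2 * q3 : ℕ) : ℝ) ≤ N := by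
        rw [hNeq]
        exact_mod_cast Nat.le_mul_of_pos_right _ hN3pos
      push_cast at h5
      have h6 : B ^ 3 ≤ (q1 : ℝ) * q2 * q3 := by
        calc B ^ 3 = B * B * B := by ring
          _ ≤ (q1 : ℝ) * q2 * q3 := by gcongr
      linarith

theorem factor_large {r : ℕ} (hr : Admissible p r) (hp : 1 ≤ p) {δ : ℝ} (hδ : 0 < δ)
    (hn₀ : 4 + 7 / δ < n₀) (hc : Consecutive p n₀ n)
    (hn : ((r : ℝ) / (2 * r - 1) + δ) * p * n₀ ^ 2 ≤ n) {q : ℕ} (hq : q.Prime)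
    (hqd : (q : ℤ) ∣ p * ((n : ℤ) + 1) ^ 2 - 1) : δ * n < q := by
  have h2 := S_le hp hc
  have h1 := factor_gt_adm hr hp h2 hc hq hqd
  have h1' : ((r : ℝ) - 1) * (n - (n₀ + 1)) <
      (r - 1) * q + r * (p * ((n₀ : ℝ) + 1) ^ 2 + (n₀ + 1) - (n + 1)) + 2 := by
    exact_mod_cast h1
  have h2' : (n : ℝ) + 1 ≤ p * ((n₀ : ℝ) + 1) ^ 2 + (n₀ + 1) := by exact_mod_cast h2
  have hr3 : (4 : ℝ) ≤ r := by
    have : 4 ≤ r := by rcases hr with rfl | hr <;> omega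
    exact_mod_cast this
  have hp1 : (1 : ℝ) ≤ p := by exact_mod_cast hp
  have hn1 : (1 : ℝ) ≤ n₀ := by exact_mod_cast hc.1
  have h3 : (r : ℝ) * (p * n₀ ^ 2) + (2 * r - 1) * δ * (p * n₀ ^ 2) ≤ (2 * r - 1) * n := by
    have h4 : (0 : ℝ) < 2 * r - 1 := by linarith
    have h5 : (2 * (r : ℝ) - 1) * (((r : ℝ) / (2 * r - 1) + δ) * p * n₀ ^ 2) ≤
        (2 * r - 1) * n := mul_le_mul_of_nonneg_left hn h4.le
    have h6 : (2 * (r : ℝ) - 1) * (((r : ℝ) / (2 * r - 1) + δ) * p * n₀ ^ 2) =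
        (r : ℝ) * (p * n₀ ^ 2) + (2 * r - 1) * δ * (p * n₀ ^ 2) := by
      field_simp
    linarith
  have h7 : 4 * δ + 7 < δ * n₀ := by
    have : δ * (4 + 7 / δ) < δ * n₀ := mul_lt_mul_of_pos_left hn₀ hδ
    have h8 : δ * (4 + 7 / δ) = 4 * δ + 7 := by field_simp
    linarith
  -- `r p n₀ (δ n₀ - 4 δ - 7) > 0`
  have h8 : 0 < (r : ℝ) * p * n₀ * (δ * n₀ - (4 * δ + 7)) := by
    have : 0 < (r : ℝ) * p * n₀ := by positivity
    exact mul_pos this (by linarith)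
  have h9 : ((r : ℝ) - 1) * (δ * n) ≤ (r - 1) * (δ * (p * n₀ ^ 2 + 4 * p * n₀)) := by
    have h10 : (n : ℝ) ≤ p * n₀ ^ 2 + 4 * p * n₀ := by
      have : (p : ℝ) * ((n₀ : ℝ) + 1) ^ 2 + (n₀ + 1) - 1 ≤ p * n₀ ^ 2 + 4 * p * n₀ := by
        nlinarith [mul_le_mul hp1 hn1 zero_le_one (by positivity : (0:ℝ) ≤ (p:ℝ))]
      linarith
    have h11 : δ * n ≤ δ * (p * n₀ ^ 2 + 4 * p * n₀) := mul_le_mul_of_nonneg_left h10 hδ.le
    exact mul_le_mul_of_nonneg_left h11 (by linarith)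
  have h12 : (r : ℝ) * (2 * p * n₀ + p) ≤ r * (3 * p * n₀) := by
    apply mul_le_mul_of_nonneg_left _ (by linarith)
    nlinarith
  have h13 : (2 * (r : ℝ) - 1) * (n₀ + 1) ≤ r * (4 * p * n₀) := by
    have h14 : ((n₀ : ℝ) + 1) ≤ 2 * (p * n₀) := by nlinarith
    calc (2 * (r : ℝ) - 1) * (n₀ + 1) ≤ (2 * r) * (2 * (p * n₀)) := by
          apply mul_le_mul (by linarith) h14 (by linarith) (by linarith)
      _ = r * (4 * p * n₀) := by ring
  have h15 : 0 ≤ δ * (4 * p * n₀) := by positivity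
  have h16 : ((r : ℝ) - 1) * (δ * n) < (r - 1) * q := by nlinarith
  exact lt_of_mul_lt_mul_left h16 (by linarith)

theorem two_factors {r : ℕ} (hr : Admissible p r) (hp : 1 ≤ p) {δ : ℝ} (hδ : 0 < δ) :
    ∃ N₀ : ℕ, ∀ n₀ n : ℕ, N₀ ≤ n₀ → Consecutive p n₀ n →
      ((r : ℝ) / (2 * r - 1) + δ) * p * n₀ ^ 2 ≤ n →
        (p * (n + 1) ^ 2 - 1).Prime ∨ ∃ q₁ q₂ : ℕ, q₁.Prime ∧ q₂.Prime ∧ δ * n < q₁ ∧ q₁ ≤ q₂ ∧
          p * (n + 1) ^ 2 - 1 = q₁ * q₂ := by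
  obtain ⟨A, hA⟩ := exists_nat_gt (4 + 7 / δ)
  obtain ⟨B, hB⟩ := exists_nat_gt (4 * p / δ ^ 3)
  refine ⟨A + B + 1, fun n₀ n hN hc hn => ?_⟩
  have hA' : 4 + 7 / δ < n₀ := by
    have : (A : ℝ) ≤ n₀ := by exact_mod_cast (by omega)
    linarith
  have hn₀n := hc.2.1
  have hB' : 4 * p / δ ^ 3 < n := by
    have : (B : ℝ) ≤ n := by exact_mod_cast (by omega)
    linarith
  have hn2 : 2 ≤ n := by omega
  have hge : 1 ≤ p * (n + 1) ^ 2 := Nat.mul_pos hp (by positivity)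
  have hcast : ((p * (n + 1) ^ 2 - 1 : ℕ) : ℤ) = p * ((n : ℤ) + 1) ^ 2 - 1 := by
    rw [Nat.cast_sub hge]
    push_cast
    ring
  have hn1 : (1 : ℝ) ≤ n := by exact_mod_cast (by omega)
  refine prime_or (B := δ * n) (by positivity) ?_ ?_ ?_
  · have h1 : 3 ^ 2 ≤ (n + 1) ^ 2 := Nat.pow_le_pow_left (by omega) 2
    have h2 : (n + 1) ^ 2 ≤ p * (n + 1) ^ 2 := Nat.le_mul_of_pos_left _ hp
    omega
  · have h3 : ((p * (n + 1) ^ 2 - 1 : ℕ) : ℝ) ≤ p * ((n : ℝ) + 1) ^ 2 := by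
      rw [Nat.cast_sub hge]
      push_cast
      linarith
    have h4 : (p : ℝ) * ((n : ℝ) + 1) ^ 2 ≤ 4 * p * n ^ 2 := by
      have h5 : ((n : ℝ) + 1) ^ 2 ≤ 4 * n ^ 2 := by nlinarith
      nlinarith [mul_le_mul_of_nonneg_left h5 (Nat.cast_nonneg (α := ℝ) p)]
    have h6 : 4 * (p : ℝ) < δ ^ 3 * n := by
      have h7 : (0 : ℝ) < δ ^ 3 := by positivity
      rw [div_lt_iff₀ h7] at hB'
      linarith
    have h8 : 4 * (p : ℝ) * n ^ 2 < (δ * n) ^ 3 := by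
      have h9 : (0 : ℝ) < (n : ℝ) ^ 2 := by positivity
      calc 4 * (p : ℝ) * n ^ 2 < δ ^ 3 * n * n ^ 2 := mul_lt_mul_of_pos_right h6 h9
        _ = (δ * n) ^ 3 := by ring
    linarith
  · intro q hq hqd
    refine factor_large hr hp hδ hA' hc hn hq ?_
    rw [← hcast]
    exact_mod_cast hqd

end Pool.Agent.GZ72
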